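import Pool.Agent.Lib.MP_74be22_h62.Step

/-! Iterated inflation of the projective plane has no bounded transversal. -/

open Finset
open scoped Classical

namespace T74B

theorem card_small {β : Type} [Fintype β] (r : ℕ) :
    (univ.filter fun S : Finset β => S.card ≤ r).card ≤ (Fintype.card β + 1) ^ r := by
  have h1 : (univ.filter fun S : Finset β => S.card ≤ r) ⊆
      (univ : Finset (Fin r → Option β)).image fun g => univ.filter fun x => ∃ i, g i = some x := by
    intro S hS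
    have hr := (mem_filter.1 hS).2
    refine mem_image.2 ⟨fun i => if h : i.1 < S.card then some (S.equivFin.symm ⟨i, h⟩).1 else none,
      mem_univ _, ?_⟩
    ext x
    simp only [mem_filter, mem_univ, true_and]
    constructor
    · rintro ⟨i, hi⟩
      split_ifs at hi with h
      exact Option.some.inj hi ▸ Subtype.prop _
    · intro hx
      exact ⟨⟨S.equivFin ⟨x, hx⟩, (S.equivFin ⟨x, hx⟩).2.trans_le hr⟩, by simp⟩
  exact (card_le_card h1).trans (card_image_le.trans (by simp))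

/-- a design whose bounded almost-transversals have a large second moment -/
def Inv (K : Type) [Fintype K] (C : ℕ) (δ E : ℝ) (N : ℕ) : Prop :=
  ∃ (X M : Type) (_ : Fintype X) (_ : Fintype M) (thr : X → Option K → M) (r : ℕ), Lin thr ∧
    (∀ A, deg thr univ A = r) ∧ Fintype.card X < r ^ 2 ∧ Fintype.card X ≤ Fintype.card K ^ N ∧
    0 < Fintype.card M ∧ ∀ B, (∀ A, deg thr B A ≤ C) →
      ((univ.filter fun A => deg thr B A = 0).card : ℝ) ≤ δ * Fintype.card M →
      E * Fintype.card M ≤ ∑ A, (deg thr B A : ℝ) ^ 2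

variable {K : Type} [Field K] [Fintype K]

/-- the projective plane -/
def pg : (K × K) ⊕ Option K → Option K → (Option K × K) ⊕ Unit
  | .inl P, d => .inl (d, lin d P)
  | .inr _, none => .inr ()
  | .inr e, some j => .inl (e, j)

omit [Fintype K] in
theorem lin_pg : Lin (pg (K := K)) := by
  constructor
  · rintro (P | e) (_ | a) (_ | b) h <;> simp_all [pg]
  · rintro (P | p) (Q | q) d d' e e' hne h1 h2
    · simp only [pg, Sum.inl.injEq, Prod.mk.injEq] at h1 h2
      obtain ⟨rfl, h1⟩ := h1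
      obtain ⟨rfl, h2⟩ := h2
      by_contra k
      exact hne (by rw [lin_inj k h1 h2])
    · rcases d' with _ | a <;> rcases e' with _ | b <;> simp_all [pg]
    · rcases d with _ | a <;> rcases e with _ | b <;> simp only [pg, reduceCtorEq,
        Sum.inl.injEq, Prod.mk.injEq] at h1 h2
      obtain ⟨rfl, h1⟩ := h1
      obtain ⟨rfl, h2⟩ := h2
      rw [h1, h2]
    · have : p ≠ q := fun k => hne (by rw [k])
      rcases d with _ | a <;> rcases e with _ | b <;> rcases d' with _ | a' <;>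
        rcases e' with _ | b' <;> simp_all [pg]

theorem deg_pg (A : (Option K × K) ⊕ Unit) : deg pg univ A = Fintype.card K + 1 := by
  have e1 : ∀ (P : K × K) d, pg (.inl P) d = .inl (d, lin d P) := fun _ _ => rfl
  have e2 : ∀ e : Option K, pg (.inr e) none = .inr () := fun _ => rfl
  have e3 : ∀ (e : Option K) j, pg (.inr e) (some j) = .inl (e, j) := fun _ _ => rfl
  have e4 : ∀ f : Option K → Option K → ℕ, ∑ x, ∑ y, f x y = ∑ x, (f x none + ∑ y, f x (some y)) :=
    fun f => sum_congr rfl fun _ _ => Fintype.sum_option _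
  unfold deg
  rw [Fintype.sum_prod_type, Fintype.sum_sum_type, e4]
  rcases A with ⟨d, j⟩ | ⟨⟨⟩⟩
  · rw [← fl_univ d j, fl, card_filter]
    simp [e1, e2, e3, ite_and]
  · simp [e1, e2, e3]

theorem base (C : ℕ) (δ : ℝ) : Inv K C δ 0 4 := by
  have h : 2 ≤ Fintype.card K := Fintype.one_lt_card
  refine ⟨_, _, inferInstance, inferInstance, pg, _, lin_pg, deg_pg, ?_, ?_, Fintype.card_pos,
    fun B _ _ => by rw [zero_mul]; positivity⟩
  all_goals simp only [Fintype.card_sum, Fintype.card_prod, Fintype.card_option]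
  · nlinarith
  · nlinarith [Nat.mul_le_mul h h, Nat.mul_le_mul (Nat.mul_le_mul h h)
      (le_refl (Fintype.card K * Fintype.card K))]

theorem large (a b : ℝ) (hb : 0 < b) : ∃ g0 : ℕ, ∀ g : ℕ, g0 ≤ g → a * Real.log g + a ≤ b * g := by
  have h1 := (Real.isLittleO_log_id_atTop.const_mul_left a).def (half_pos hb)
  have h2 := (h1.and (Filter.eventually_ge_atTop (max 0 (2 * a / b)))).natCast_atTop (R := ℝ)
  obtain ⟨g0, h⟩ := Filter.eventually_atTop.1 h2
  refine ⟨g0, fun g hg => ?_⟩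
  obtain ⟨k1, k2⟩ := h g hg
  have k3 := (div_le_iff₀ hb).1 ((le_max_right _ _).trans k2)
  rw [Real.norm_eq_abs, Real.norm_eq_abs, id, Nat.abs_cast] at k1
  linarith [le_abs_self (a * Real.log g)]

theorem mix_ex {I F M ι : Type} [Fintype I] [Fintype F] [Nonempty F] [Fintype M] (S : Finset ι)
    (f : ι → M → I → F → ℕ) (C : ℕ) {β κ c ε : ℝ} (hβ : 0 < β) (hκ : 0 ≤ κ)
    (h1 : c ≤ Real.exp (-(C / β)) / 4) (h2 : c ≤ κ / (16 * C + 8))
    (hτ : 0 < c * Fintype.card F - 2) (hS : (S.card : ℝ) * 2 ^ Fintype.card M ≤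
      Real.exp ((c * Fintype.card F - 2) * (ε * Fintype.card M))) :
    ∃ π : M → I → Equiv.Perm F, ∀ B ∈ S, ((univ.filter fun A => BadF C β (Real.exp (-(C / β)) / 4) κ
      (κ / (16 * C + 8)) (f B A) (π A)).card : ℝ) ≤ ε * Fintype.card M :=
  union S (fun B A ω => BadF C β _ κ _ (f B A) ω) hτ (fun _ _ => bad_count C hβ hκ h1 h2 _) hS

theorem step {C : ℕ} (hC : 1 ≤ C) : ∃ v : ℝ, 0 < v ∧ ∀ (δ E : ℝ) (N : ℕ), 0 < δ →
    ∃ (δ' : ℝ) (g0 : ℕ), 0 < δ' ∧ ∀ (K : Type) [Field K] [Fintype K], g0 ≤ Fintype.card K →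
      Inv K C δ E N → Inv K C δ' (E + v) (N + 2) := by
  have C1 : (1 : ℝ) ≤ C := by exact_mod_cast hC
  set θ' : ℝ := 1 / (16 * C ^ 2) / (16 * C + 8) with hθ'
  have t1 : 0 < θ' := by positivity
  have t2 : θ' ≤ 1 := by
    rw [hθ', div_div, div_le_one (by positivity)]
    nlinarith [mul_le_mul C1 C1 zero_le_one (zero_le_one.trans C1)]
  set v : ℝ := θ' / (512 * C ^ 3) with hv
  have v0 : 0 < v := by positivity
  set β : ℝ := v / (2 * C ^ 2) with hβ
  have b0 : 0 < β := by positivity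
  have b1 : β * (C + 1) < 1 := by
    rw [hβ, hv, div_div, div_mul_eq_mul_div, div_lt_one (by positivity)]
    have h1 : (C : ℝ) ≤ C ^ 3 := le_self_pow₀ C1 (by norm_num)
    have h2 : (1 : ℝ) ≤ C ^ 2 := one_le_pow₀ C1
    nlinarith [mul_le_mul_of_nonneg_left h2 (show (0 : ℝ) ≤ C ^ 3 by positivity)]
  set θ : ℝ := Real.exp (-(C / β)) / 4 with hθ
  have t0 : 0 < θ := by positivity
  refine ⟨v, v0, fun δ E N hδ => ?_⟩
  set ε : ℝ := min (δ / 2) (1 / (64 * C ^ 3)) with hε
  have e0 : 0 < ε := by positivity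
  have e1 : ε ≤ 1 / (64 * C ^ 3) := min_le_right _ _
  have e2 : ε ≤ 1 / 4 := e1.trans (one_div_le_one_div_of_le (by norm_num)
    (by nlinarith [one_le_pow₀ (n := 3) C1]))
  have c0 : 0 < min θ θ' := lt_min t0 t1
  obtain ⟨g1, hg1⟩ := large (C * (N + 3) + 3) (ε * min θ θ') (by positivity)
  refine ⟨θ * ε, max g1 (2 * C), by positivity, ?_⟩
  rintro K _ _ hK ⟨X, M, _, _, thr, r, hL, hr, h1, h2, h3, h4⟩
  have g2 : 2 ≤ Fintype.card K := Fintype.one_lt_card
  have g2' : (2 : ℝ) ≤ Fintype.card K := by exact_mod_cast g2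
  have hb := hg1 _ ((le_max_left _ _).trans hK)
  have l0 : 0 ≤ Real.log (Fintype.card K) := Real.log_nonneg (by linarith)
  have a0 : (0 : ℝ) ≤ C * (N + 3) := by positivity
  have τ0 : 0 < min θ θ' * Fintype.card K - 2 := by
    have := mul_le_mul_of_nonneg_right e2 (mul_nonneg c0.le (zero_le_two.trans g2'))
    nlinarith [mul_nonneg a0 l0]
  obtain ⟨π, hπ⟩ := mix_ex (univ.filter fun B : Finset (X × (K × K)) => B.card ≤ C * Fintype.card M)
    (ff thr) C (κ := 1 / (16 * C ^ 2)) (ε := ε) b0 (by positivity) (min_le_left θ θ')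
    (min_le_right _ _) τ0 (by
      have k1 : Fintype.card (X × (K × K)) + 1 ≤ Fintype.card K ^ (N + 3) := by
        rw [Fintype.card_prod, Fintype.card_prod, pow_add]
        have p1 : 1 ≤ Fintype.card K ^ N := Nat.one_le_pow _ _ (by omega)
        have p2 := Nat.mul_le_mul h2 (le_refl (Fintype.card K * Fintype.card K))
        have p3 := Nat.mul_le_mul p1 (Nat.mul_le_mul g2 g2)
        nlinarith [Nat.mul_le_mul (le_refl (Fintype.card K ^ N * (Fintype.card K * Fintype.card K)))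
          g2]
      have k2 := (card_small (β := X × (K × K)) (C * Fintype.card M)).trans
        (Nat.pow_le_pow_left k1 _)
      rw [← pow_mul] at k2
      have k3 : ((univ.filter fun B : Finset (X × (K × K)) =>
          B.card ≤ C * Fintype.card M).card : ℝ) ≤
          Real.exp (((N + 3) * (C * Fintype.card M) : ℕ) * Real.log (Fintype.card K)) := by
        rw [Real.exp_nat_mul, Real.exp_log (by linarith)]
        exact_mod_cast k2
      have k4 : (2 : ℝ) ^ Fintype.card M ≤ Real.exp (Fintype.card M * 1) := by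
        rw [Real.exp_nat_mul]
        exact pow_le_pow_left₀ zero_le_two (by linarith [Real.add_one_le_exp (1 : ℝ)]) _
      refine (mul_le_mul k3 k4 (by positivity) (Real.exp_pos _).le).trans ?_
      rw [← Real.exp_add, Real.exp_le_exp]
      push_cast
      have m0 : (0 : ℝ) ≤ Fintype.card M := by positivity
      have k5 : C * (N + 3) * Real.log (Fintype.card K) + 1 ≤
          (min θ θ' * Fintype.card K - 2) * ε := by nlinarith
      nlinarith [mul_le_mul_of_nonneg_right k5 m0])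
  refine ⟨X × (K × K), M × K, inferInstance, inferInstance, nxt thr π, r * Fintype.card K,
    lin_nxt thr π hL, fun A => by rw [← hr A.1]; exact deg_nxt_univ thr π A.1 A.2, ?_, ?_,
    by rw [Fintype.card_prod]; positivity, fun B k1 k2 => ?_⟩
  · rw [Fintype.card_prod, Fintype.card_prod, mul_pow, sq (Fintype.card K)]
    exact Nat.mul_lt_mul_of_pos_right h1 (by positivity)
  · rw [Fintype.card_prod, Fintype.card_prod, pow_add, sq]
    exact Nat.mul_le_mul_right _ h2
  · refine le_trans (le_of_eq ?_) (step_core thr π hC (δ := 2 * ε) (δ' := θ * ε) (E := E) b0 b1 t0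
      t1.le (by linarith) (le_of_eq (by ring)) e1 ((le_max_right _ _).trans hK)
      (fun B hB => hπ B (mem_filter.2 ⟨mem_univ _, hB⟩)) (fun B k3 k4 => h4 B k3 (k4.trans
        (mul_le_mul_of_nonneg_right (by linarith [min_le_left (δ / 2) (1 / (64 * (C : ℝ) ^ 3))])
          (by positivity)))) B k1 k2)
    congr 1
    rw [hβ, hv]
    field_simp
    ring

theorem levels {C : ℕ} (hC : 1 ≤ C) : ∃ (δ : ℝ) (N g0 : ℕ), 0 < δ ∧
    ∀ (K : Type) [Field K] [Fintype K], g0 ≤ Fintype.card K → Inv K C δ (C ^ 2 + 1) N := by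
  obtain ⟨v, v0, h⟩ := step hC
  have key : ∀ k : ℕ, ∃ (δ : ℝ) (N g0 : ℕ), 0 < δ ∧
      ∀ (K : Type) [Field K] [Fintype K], g0 ≤ Fintype.card K → Inv K C δ (k * v) N := by
    intro k
    induction k with
    | zero => exact ⟨1, 4, 0, one_pos, fun K _ _ _ => by simpa using base C 1⟩
    | succ k ih =>
      obtain ⟨δ, N, g0, h0, h1⟩ := ih
      obtain ⟨δ', g1, h2, h3⟩ := h δ (k * v) N h0
      refine ⟨δ', N + 2, max g0 g1, h2, fun K _ _ hK => ?_⟩
      rw [Nat.cast_succ, add_mul, one_mul]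
      exact h3 K ((le_max_right _ _).trans hK) (h1 K ((le_max_left _ _).trans hK))
  obtain ⟨k, hk⟩ := exists_nat_ge ((C ^ 2 + 1) / v)
  obtain ⟨δ, N, g0, h0, h1⟩ := key k
  refine ⟨δ, N, g0, h0, fun K _ _ hK => ?_⟩
  obtain ⟨X, M, _, _, thr, r, a1, a2, a3, a4, a5, a6⟩ := h1 K hK
  exact ⟨X, M, _, _, thr, r, a1, a2, a3, a4, a5, fun B k1 k2 => le_trans
    (mul_le_mul_of_nonneg_right ((div_le_iff₀ v0).1 hk) (by positivity)) (a6 B k1 k2)⟩

theorem deg_eq {X D M : Type} [Fintype X] [Fintype D] {thr : X → D → M} (h : Lin thr)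
    (B : Finset X) (A : M) : deg thr B A = (B.filter fun x => ∃ d, thr x d = A).card := by
  rw [deg, ← card_filter]
  refine card_bij (fun i _ => i.1) (fun i hi => ?_) (fun i hi j hj e => ?_) fun x hx => ?_
  · exact mem_filter.2 ⟨(mem_filter.1 hi).2.1, _, (mem_filter.1 hi).2.2⟩
  · refine Prod.ext e (h.1 i.1 ((mem_filter.1 hi).2.2.trans ?_))
    rw [e]
    exact (mem_filter.1 hj).2.2.symm
  · obtain ⟨h1, d, h2⟩ := mem_filter.1 hx
    exact ⟨(x, d), mem_filter.2 ⟨mem_univ _, h1, h2⟩, rfl⟩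

theorem negative (c : ℝ) (l : ℕ) (hc : 0 < c) (hl : c ^ 2 ≤ l) (C : ℕ) :
    ∃ n : ℕ, ∃ F : Finset (Finset (Fin n)),
      (∀ A ∈ F, c * Real.sqrt (n : ℝ) < (A.card : ℝ)) ∧
      (∀ A ∈ F, ∀ B ∈ F, A ≠ B → (A ∩ B).card ≤ l) ∧
      ¬ ∃ S : Finset (Fin n), ∀ A ∈ F, 1 ≤ (A ∩ S).card ∧ (A ∩ S).card ≤ C := by
  obtain ⟨δ, N, g0, h0, h1⟩ := levels (Nat.le_add_left 1 C)
  obtain ⟨p, hp, hpp⟩ := Nat.exists_infinite_primes (g0 + 1)
  have := Fact.mk hpp
  obtain ⟨X, M, _, _, thr, r, hL, hr, a3, -, a5, a6⟩ := h1 (ZMod p) (by rw [ZMod.card]; omega)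
  have l0 : (0 : ℝ) < l := lt_of_lt_of_le (by positivity) hl
  let e := (Fintype.equivFin (X × Fin l)).toEmbedding
  let st : M → Finset X := fun A => univ.filter fun x => ∃ d, thr x d = A
  let bl : Finset X → Finset (Fin (Fintype.card (X × Fin l))) := fun T => (T ×ˢ univ).map e
  have cb : ∀ T, (bl T).card = T.card * l := fun T => by simp [bl]
  refine ⟨_, univ.image fun A => bl (st A), fun T hT => ?_, fun T hT T' hT' hne => ?_, ?_⟩
  · obtain ⟨A, -, rfl⟩ := mem_image.1 hT
    rw [cb, ← deg_eq hL, hr, Fintype.card_prod, Fintype.card_fin]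
    have a4 : (Fintype.card X : ℝ) < r ^ 2 := by exact_mod_cast a3
    refine lt_of_pow_lt_pow_left₀ 2 (by positivity) ?_
    rw [mul_pow, Real.sq_sqrt (by positivity)]
    push_cast
    have x0 : (0 : ℝ) ≤ Fintype.card X * l := by positivity
    nlinarith [mul_le_mul_of_nonneg_right hl x0, mul_lt_mul_of_pos_right a4 (mul_pos l0 l0)]
  · obtain ⟨A, -, rfl⟩ := mem_image.1 hT
    obtain ⟨A', -, rfl⟩ := mem_image.1 hT'
    have : bl (st A) ∩ bl (st A') = bl (st A ∩ st A') := by
      simp only [bl]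
      rw [← map_inter, inter_product]
    rw [this, cb]
    refine (Nat.mul_le_mul_right _ (card_le_one.2 fun x hx y hy => ?_)).trans_eq (one_mul _)
    simp only [st, mem_inter, mem_filter, mem_univ, true_and] at hx hy
    obtain ⟨⟨d, h1⟩, d', h2⟩ := hx
    obtain ⟨⟨f, h3⟩, f', h4⟩ := hy
    by_contra k
    obtain rfl := hL.2 x y d f d' f' k (h1.trans h3.symm) (h2.trans h4.symm)
    exact hne (by rw [← h1, ← h2])
  · rintro ⟨S, hS⟩
    let B : Finset X := univ.filter fun x => ∃ i, e (x, i) ∈ S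
    have hS' := fun A => hS _ (mem_image_of_mem _ (mem_univ A))
    have up : ∀ A, deg thr B A ≤ C := fun A => by
      rw [deg_eq hL]
      refine le_trans (card_le_card fun x hx => ?_) ((card_image_le (s := bl (st A) ∩ S)
        (f := fun y => ((Fintype.equivFin (X × Fin l)).symm y).1)).trans (hS' A).2)
      obtain ⟨k1, k2⟩ := mem_filter.1 hx
      obtain ⟨i, hi⟩ := (mem_filter.1 k1).2
      exact mem_image.2 ⟨e (x, i), mem_inter.2 ⟨mem_map_of_mem _ (mem_product.2
        ⟨mem_filter.2 ⟨mem_univ _, k2⟩, mem_univ _⟩), hi⟩, by simp [e]⟩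
    have lo : (univ.filter fun A => deg thr B A = 0) = ∅ := filter_false_of_mem fun A _ => by
      obtain ⟨y, hy⟩ := card_pos.1 (hS' A).1
      obtain ⟨⟨x, i⟩, k1, rfl⟩ := mem_map.1 (mem_inter.1 hy).1
      rw [deg_eq hL]
      exact card_ne_zero.2 ⟨x, mem_filter.2 ⟨mem_filter.2 ⟨mem_univ _, i, (mem_inter.1 hy).2⟩,
        (mem_filter.1 (mem_product.1 k1).1).2⟩⟩
    have k1 := a6 B (fun A => (up A).trans (Nat.le_succ C))
      (by rw [lo, card_empty, Nat.cast_zero]; positivity)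
    have k2 := sum_le_card_nsmul univ (fun A => (deg thr B A : ℝ) ^ 2) (((C + 1 : ℕ) : ℝ) ^ 2)
      fun A _ => pow_le_pow_left₀ (by positivity) (by exact_mod_cast (up A).trans (Nat.le_succ C)) _
    have m0 : (0 : ℝ) < Fintype.card M := by exact_mod_cast a5
    rw [card_univ, nsmul_eq_mul] at k2
    nlinarith

end T74B
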