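import Mathlib

/-! Counting lemmas for independent random permutations. -/

open Finset
open scoped Classical

namespace T74B

variable {F : Type} [Fintype F]

theorem miss (V J : Finset F) :
    ((univ.filter fun ρ : Equiv.Perm F => ∀ j ∈ J, ρ j ∉ V).card : ℝ) ≤
      (1 - V.card / Fintype.card F) ^ J.card * Fintype.card (Equiv.Perm F) := by
  induction J using Finset.induction_on with
  | empty => simp
  | insert a J ha ih =>
    have hg : (0 : ℝ) < Fintype.card F := by exact_mod_cast Fintype.card_pos_iff.2 ⟨a⟩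
    set G := univ.filter fun ρ : Equiv.Perm F => ∀ j ∈ J, ρ j ∉ V with hG
    have h1 : ∀ b ∈ Jᶜ, (G.filter fun ρ => ρ b ∈ V).card = (G.filter fun ρ => ρ a ∈ V).card := by
      intro b hb
      have sw : ∀ j ∈ J, Equiv.swap a b j = j := fun j hj =>
        Equiv.swap_apply_of_ne_of_ne (fun e => ha (e ▸ hj)) fun e => mem_compl.1 hb (e ▸ hj)
      refine card_nbij' (· * Equiv.swap a b) (· * Equiv.swap a b) (fun ρ h => ?_) (fun ρ h => ?_)
        (fun ρ _ => by simp [mul_assoc]) fun ρ _ => by simp [mul_assoc]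
      all_goals
        simp only [hG, coe_filter, mem_filter, mem_univ, true_and, Set.mem_ofPred_eq,
          Equiv.Perm.mul_apply, Equiv.swap_apply_left, Equiv.swap_apply_right] at h ⊢
        exact ⟨fun j hj => by rw [sw j hj]; exact h.1 j hj, h.2⟩
    have h2 : ∑ b ∈ Jᶜ, (G.filter fun ρ => ρ b ∈ V).card = G.card * V.card := by
      simp only [card_filter]
      rw [sum_comm, ← smul_eq_mul, ← sum_const]
      refine sum_congr rfl fun ρ hρ => ?_
      rw [← card_filter]
      refine card_nbij' ρ ρ.symm (fun b h => (mem_filter.1 h).2) (fun v h => ?_)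
        (fun _ _ => by simp) fun _ _ => by simp
      refine mem_filter.2 ⟨mem_compl.2 fun hj => (mem_filter.1 hρ).2 _ hj ?_, ?_⟩ <;> simpa using h
    rw [sum_congr rfl h1, sum_const, smul_eq_mul] at h2
    have h3 : G.card * V.card ≤ Fintype.card F * (G.filter fun ρ => ρ a ∈ V).card :=
      h2 ▸ Nat.mul_le_mul_right _ (card_le_univ _)
    have h4 := card_filter_add_card_filter_not (s := G) fun ρ => ρ a ∈ V
    have h5 : (univ.filter fun ρ : Equiv.Perm F => ∀ j ∈ insert a J, ρ j ∉ V) =
        G.filter fun ρ => ρ a ∉ V := by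
      ext ρ
      simp only [hG, mem_filter, mem_univ, true_and, forall_mem_insert]
      exact and_comm
    have h6 : (V.card : ℝ) / Fintype.card F ≤ 1 :=
      (div_le_one hg).2 (by exact_mod_cast card_le_univ V)
    rw [h5, card_insert_of_notMem ha, pow_succ', mul_assoc]
    refine le_trans ?_ (mul_le_mul_of_nonneg_left ih (by linarith))
    have h3' : (G.card : ℝ) * V.card ≤ Fintype.card F * (G.filter fun ρ => ρ a ∈ V).card := by
      exact_mod_cast h3
    have h4' : ((G.filter fun ρ => ρ a ∈ V).card : ℝ) + (G.filter fun ρ => ρ a ∉ V).card =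
        G.card := by exact_mod_cast h4
    have h7 : (V.card : ℝ) / Fintype.card F * G.card ≤ (G.filter fun ρ => ρ a ∈ V).card := by
      rw [div_mul_eq_mul_div, div_le_iff₀ hg]
      linarith
    linarith

theorem mgf (U V : Finset F) {z : ℝ} (h0 : 0 ≤ z) (h1 : z ≤ 1) :
    ∑ ρ : Equiv.Perm F, z ^ (U.filter fun j => ρ j ∈ V).card ≤
      (1 - (1 - z) * (V.card / Fintype.card F)) ^ U.card * Fintype.card (Equiv.Perm F) := by
  have e : ∀ ρ : Equiv.Perm F, z ^ (U.filter fun j => ρ j ∈ V).card = ∑ J ∈ U.powerset,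
      (if ∀ j ∈ J, ρ j ∉ V then 1 else 0) * ((1 - z) ^ J.card * z ^ (U.card - J.card)) := by
    intro ρ
    have : z ^ (U.filter fun j => ρ j ∈ V).card =
        ∏ j ∈ U, ((if ρ j ∉ V then 1 else 0) * (1 - z) + z) := by
      rw [← prod_const, prod_filter]
      exact prod_congr rfl fun j _ => by by_cases h : ρ j ∈ V <;> simp [h]
    rw [this, prod_add]
    refine sum_congr rfl fun J hJ => ?_
    rw [prod_mul_distrib, prod_const, prod_const, card_sdiff_of_subset (mem_powerset.1 hJ),
      prod_boole, mul_assoc]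
    congr 2
  simp only [e]
  rw [sum_comm, show 1 - (1 - z) * ((V.card : ℝ) / Fintype.card F) =
    (1 - V.card / Fintype.card F) * (1 - z) + z by ring, ← sum_pow_mul_eq_add_pow, sum_mul]
  refine sum_le_sum fun J _ => ?_
  rw [← sum_mul, sum_boole]
  refine (mul_le_mul_of_nonneg_right (miss V J)
    (mul_nonneg (pow_nonneg (by linarith) _) (pow_nonneg h0 _))).trans_eq ?_
  rw [mul_pow]
  ring

theorem sum_update {I P : Type} [Fintype I] [Fintype P] (G : (I → P) → ℝ) (i : I) :
    (∑ π, G π) * Fintype.card P = ∑ π, ∑ ρ, G (Function.update π i ρ) := by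
  have inv : Function.Involutive fun x : (I → P) × P => (Function.update x.1 i x.2, x.1 i) :=
    fun x => by simp
  rw [← Fintype.sum_prod_type', ← inv.bijective.sum_comp fun x => G (Function.update x.1 i x.2),
    Fintype.sum_prod_type, sum_mul]
  simp [mul_comm]

theorem cover {I : Type} [Fintype I] (V : I → Finset F) (s : Finset I) : ∀ {z : ℝ}, 0 ≤ z →
    z ≤ 1 → ∑ π : I → Equiv.Perm F, z ^ (univ.filter fun j => ∀ i ∈ s, π i j ∈ V i).card ≤
      (1 - (1 - z) * ∏ i ∈ s, ((V i).card / Fintype.card F : ℝ)) ^ Fintype.card F *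
        Fintype.card (I → Equiv.Perm F) := by
  induction s using Finset.induction_on with
  | empty => intro z _ _; simp [mul_comm]
  | insert a s ha ih =>
    intro z h0 h1
    have hP : (0 : ℝ) < Fintype.card (Equiv.Perm F) := by exact_mod_cast Fintype.card_pos
    have p0 : (0 : ℝ) ≤ (V a).card / Fintype.card F := by positivity
    have p1 : ((V a).card : ℝ) / Fintype.card F ≤ 1 :=
      div_le_one_of_le₀ (by exact_mod_cast card_le_univ _) (by positivity)
    have := @ih (1 - (1 - z) * ((V a).card / Fintype.card F)) (by nlinarith) (by nlinarith)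
    rw [prod_insert ha, ← mul_assoc]
    rw [sub_sub_cancel] at this
    refine le_of_mul_le_mul_right ?_ hP
    refine le_trans ?_ (mul_le_mul_of_nonneg_right this hP.le)
    rw [sum_update _ a, sum_mul]
    refine sum_le_sum fun π _ => le_trans (le_of_eq ?_) (mgf _ (V a) h0 h1)
    refine sum_congr rfl fun ρ _ => ?_
    congr 2
    ext j
    simp only [mem_filter, mem_univ, true_and, forall_mem_insert, Function.update_self]
    rw [and_comm]
    exact and_congr_left fun _ => forall₂_congr fun i hi => by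
      rw [Function.update_of_ne (ne_of_mem_of_not_mem hi ha)]

theorem tail {Ω : Type} [Fintype Ω] (k : Ω → ℕ) {t : ℝ}
    (h : ∑ ω, (1 / 2 : ℝ) ^ k ω ≤ Real.exp (-(2 * t)) * Fintype.card Ω) :
    ((univ.filter fun ω => (k ω : ℝ) < t).card : ℝ) ≤ Real.exp (-t) * Fintype.card Ω := by
  have h1 : ((univ.filter fun ω => (k ω : ℝ) < t).card : ℝ) * Real.exp (-t) ≤
      ∑ ω, (1 / 2 : ℝ) ^ k ω := by
    rw [← nsmul_eq_mul]
    refine (card_nsmul_le_sum _ _ _ fun ω hω => ?_).trans
      (sum_le_sum_of_subset_of_nonneg (filter_subset _ _) fun _ _ _ => by positivity)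
    have h2 : Real.exp (-1) ≤ 1 / 2 := by
      rw [Real.exp_neg, one_div]
      exact inv_anti₀ two_pos (by linarith [Real.add_one_le_exp (1 : ℝ)])
    refine le_trans ?_ (pow_le_pow_left₀ (Real.exp_pos _).le h2 _)
    rw [← Real.exp_nat_mul]
    exact Real.exp_le_exp.2 (by linarith [(mem_filter.1 hω).2])
  refine le_of_mul_le_mul_right (h1.trans (h.trans_eq ?_)) (Real.exp_pos (-t))
  rw [mul_right_comm, ← Real.exp_add]
  congr 2
  ring

theorem pow_le_exp {x : ℝ} (h1 : x ≤ 1) (n : ℕ) : (1 - x) ^ n ≤ Real.exp (-(x * n)) := by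
  rw [show -(x * n) = n * -x by ring, Real.exp_nat_mul]
  exact pow_le_pow_left₀ (by linarith) (by linarith [Real.add_one_le_exp (-x)]) _

/-- the function takes some value and avoids it on many points -/
def NF (t : ℝ) (f : F → ℕ) : Prop :=
  ∃ a, t ≤ (univ.filter fun j => f j = a).card ∧ t ≤ (univ.filter fun j => f j ≠ a).card

theorem popular (f : F → ℕ) (s : Finset F) (C : ℕ) (h : ∀ j ∈ s, f j ≤ C) :
    ∃ a, a ≤ C ∧ s.card ≤ (C + 1) * (univ.filter fun j => f j = a).card := by
  obtain ⟨a, ha, h1⟩ := exists_max_image (range (C + 1))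
    (fun a => (univ.filter fun j => f j = a).card) ⟨0, by simp⟩
  refine ⟨a, Nat.lt_succ_iff.1 (mem_range.1 ha), ?_⟩
  rw [card_eq_sum_card_fiberwise (f := f) (t := range (C + 1))
    fun j hj => mem_range.2 (Nat.lt_succ_of_le (h j hj))]
  refine (sum_le_card_nsmul _ _ _ fun b hb => (card_le_card ?_).trans (h1 b hb)).trans (by simp)
  exact filter_subset_filter _ (subset_univ _)

/-- many points are missed by randomly permuted sets that are not almost everything -/
theorem zero_count {I : Type} [Fintype I] [Nonempty F] (f : I → F → ℕ) {C β : ℝ} (hβ : 0 < β)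
    (h1 : ∀ i, (∑ l, f i l : ℝ) ≤ (1 - β) * Fintype.card F)
    (h2 : (∑ i, ∑ l, f i l : ℝ) ≤ C * Fintype.card F) :
    ((univ.filter fun π : I → Equiv.Perm F => ((univ.filter fun j => ∑ i, f i (π i j) = 0).card : ℝ)
      < Real.exp (-(C / β)) / 4 * Fintype.card F).card : ℝ) ≤
      Real.exp (-(Real.exp (-(C / β)) / 4 * Fintype.card F)) * Fintype.card (I → Equiv.Perm F) := by
  have hg : (0 : ℝ) < Fintype.card F := by exact_mod_cast Fintype.card_pos
  refine tail _ ?_
  have h3 := cover (fun i => univ.filter fun l => f i l = 0) univ (z := 1 / 2) (by norm_num)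
    (by norm_num)
  simp only [mem_filter, mem_univ, true_and, forall_true_left] at h3
  simp only [sum_eq_zero_iff, mem_univ, forall_true_left]
  refine h3.trans (mul_le_mul_of_nonneg_right ?_ (by positivity))
  have h4 : ∀ i, Real.exp (-((∑ l, f i l : ℝ) / Fintype.card F / β)) ≤
      (univ.filter fun l => f i l = 0).card / Fintype.card F := fun i => by
    have a1 : (Fintype.card F : ℝ) ≤ (univ.filter fun l => f i l = 0).card + ∑ l, (f i l : ℝ) := by
      rw [card_filter, ← card_univ, card_eq_sum_ones]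
      push_cast
      rw [← sum_add_distrib]
      refine sum_le_sum fun l _ => ?_
      by_cases h : f i l = 0
      · simp [h]
      · simpa [h] using Nat.one_le_iff_ne_zero.2 h
    have a0 : (0 : ℝ) ≤ ∑ l, (f i l : ℝ) := by positivity
    set t := (∑ l, f i l : ℝ) / Fintype.card F with ht
    have a2 : t ≤ 1 - β := (div_le_iff₀ hg).2 (h1 i)
    have a3 : 0 ≤ t := by positivity
    have a4 : 1 - t ≤ (univ.filter fun l => f i l = 0).card / Fintype.card F := by
      rw [le_div_iff₀ hg, sub_mul, ht, div_mul_cancel₀ _ hg.ne']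
      linarith
    refine le_trans ?_ a4
    rw [Real.exp_neg, inv_le_iff_one_le_mul₀ (Real.exp_pos _)]
    have a5 := Real.add_one_le_exp (t / β)
    have a6 : t ≤ t / β * (1 - t) := by
      rw [div_mul_eq_mul_div, le_div_iff₀ hβ]
      nlinarith
    nlinarith
  have h5 : Real.exp (-(C / β)) ≤
      ∏ i, ((univ.filter fun l => f i l = 0).card / Fintype.card F : ℝ) := by
    refine le_trans ?_ (prod_le_prod (fun _ _ => (Real.exp_pos _).le) fun i _ => h4 i)
    rw [← Real.exp_sum, sum_neg_distrib, ← sum_div, ← sum_div]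
    exact Real.exp_le_exp.2 (neg_le_neg (div_le_div_of_nonneg_right ((div_le_iff₀ hg).2 h2) hβ.le))
  have h6 : ∏ i, ((univ.filter fun l => f i l = 0).card / Fintype.card F : ℝ) ≤ 1 :=
    prod_le_one (fun _ _ => by positivity) fun i _ =>
      (div_le_one hg).2 (by exact_mod_cast card_le_univ _)
  refine (pow_le_exp (by linarith) _).trans (Real.exp_le_exp.2 ?_)
  nlinarith

/-- a non-flat summand makes the randomly permuted sum non-flat -/
theorem nf_count {I : Type} [Fintype I] [Nonempty F] (f : I → F → ℕ) (C : ℕ) {κ : ℝ} (hκ : 0 ≤ κ)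
    (h2 : ∑ i, ∑ l, f i l ≤ C * Fintype.card F) (i0 : I) (h1 : NF (κ * Fintype.card F) (f i0)) :
    ((univ.filter fun π : I → Equiv.Perm F =>
      ¬ NF (κ / (16 * C + 8) * Fintype.card F) fun j => ∑ i, f i (π i j)).card : ℝ) ≤
      2 * Real.exp (-(κ / (16 * C + 8) * Fintype.card F)) * Fintype.card (I → Equiv.Perm F) := by
  have hg : (0 : ℝ) < Fintype.card F := by exact_mod_cast Fintype.card_pos
  have hP : (0 : ℝ) < Fintype.card (Equiv.Perm F) := by exact_mod_cast Fintype.card_pos
  obtain ⟨a, ha1, ha2⟩ := h1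
  rw [card_filter]
  push_cast
  refine le_of_mul_le_mul_right ?_ hP
  rw [sum_update _ i0, mul_right_comm, mul_comm _ (Fintype.card (I → Equiv.Perm F) : ℝ),
    ← nsmul_eq_mul, ← card_univ]
  refine sum_le_card_nsmul _ _ _ fun π _ => ?_
  set r : F → ℕ := fun j => ∑ i ∈ univ.erase i0, f i (π i j) with hr
  have hw : ∀ ρ j, ∑ i, f i (Function.update π i0 ρ i j) = f i0 (ρ j) + r j := fun ρ j => by
    rw [← add_sum_erase _ _ (mem_univ i0), Function.update_self]
    congr 1
    exact sum_congr rfl fun i hi => by rw [Function.update_of_ne (ne_of_mem_erase hi)]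
  have s1 : ∑ j, r j ≤ C * Fintype.card F := by
    rw [sum_comm]
    refine le_trans ?_ h2
    refine (sum_le_sum_of_subset (erase_subset _ _)).trans_eq (sum_congr rfl fun i _ => ?_)
    exact Equiv.sum_comp (π i) (f i)
  have s2 : (univ.filter fun j => ¬ r j ≤ 2 * C).card * (2 * C + 1) ≤ ∑ j, r j :=
    (card_nsmul_le_sum _ _ _ fun j hj => Nat.succ_le_of_lt (not_le.1 (mem_filter.1 hj).2)).trans
      (sum_le_sum_of_subset (filter_subset _ _))
  have s3 := card_filter_add_card_filter_not (s := univ) fun j => r j ≤ 2 * C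
  obtain ⟨b, -, hb⟩ := popular r (univ.filter fun j => r j ≤ 2 * C) (2 * C)
    fun j hj => (mem_filter.1 hj).2
  set U := univ.filter fun j => r j = b with hU
  have s4 : (Fintype.card F : ℝ) ≤ (4 * C + 2) * U.card := by
    rw [card_univ] at s3
    have : Fintype.card F ≤ (4 * C + 2) * U.card := by nlinarith
    exact_mod_cast this
  have tl : ∀ V : Finset F, κ * Fintype.card F ≤ V.card →
      ((univ.filter fun ρ : Equiv.Perm F => ((U.filter fun j => ρ j ∈ V).card : ℝ) <
        κ / (16 * C + 8) * Fintype.card F).card : ℝ) ≤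
      Real.exp (-(κ / (16 * C + 8) * Fintype.card F)) * Fintype.card (Equiv.Perm F) := by
    intro V hV
    refine tail _ ((mgf U V (z := 1 / 2) (by norm_num) (by norm_num)).trans
      (mul_le_mul_of_nonneg_right ?_ hP.le))
    have v1 : (V.card : ℝ) / Fintype.card F ≤ 1 :=
      (div_le_one hg).2 (by exact_mod_cast card_le_univ _)
    have v2 : κ ≤ (V.card : ℝ) / Fintype.card F := (le_div_iff₀ hg).2 hV
    refine (pow_le_exp (by linarith) _).trans (Real.exp_le_exp.2 (neg_le_neg ?_))
    have v3 : κ / (16 * C + 8) * Fintype.card F ≤ κ * U.card / 4 := by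
      rw [div_mul_eq_mul_div, div_le_div_iff₀ (by positivity) (by positivity)]
      nlinarith [mul_le_mul_of_nonneg_left s4 hκ]
    have v4 : (0 : ℝ) ≤ U.card := by positivity
    nlinarith [mul_le_mul_of_nonneg_right v2 v4]
  rw [sum_boole, two_mul, add_mul]
  refine le_trans ?_ (add_le_add (tl _ ha1) (tl _ ha2))
  rw [← Nat.cast_add, Nat.cast_le]
  refine le_trans (card_le_card fun ρ hρ => ?_) (card_union_le _ _)
  by_contra hc
  simp only [mem_union, mem_filter, mem_univ, true_and, not_or, not_lt] at hc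
  refine (mem_filter.1 hρ).2 ⟨a + b, hc.1.trans ?_, hc.2.trans ?_⟩
  all_goals
    refine Nat.cast_le.2 (card_le_card fun j hj => ?_)
    simp only [hU, mem_filter, mem_univ, true_and, hw] at hj ⊢
    omega

/-- union bound over a family of independent events -/
theorem union {M Ω ι : Type} [Fintype M] [Fintype Ω] [Nonempty Ω] (S : Finset ι)
    (Bad : ι → M → Ω → Prop) {τ ε : ℝ} (hτ : 0 < τ)
    (h : ∀ B A, ((univ.filter fun ω => Bad B A ω).card : ℝ) ≤ Real.exp (-τ) * Fintype.card Ω)
    (hS : (S.card : ℝ) * 2 ^ Fintype.card M ≤ Real.exp (τ * (ε * Fintype.card M))) :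
    ∃ π : M → Ω, ∀ B ∈ S, ((univ.filter fun A => Bad B A (π A)).card : ℝ) ≤ ε * Fintype.card M := by
  have h1 : ∑ π : M → Ω, ∑ B ∈ S, ∏ A, (if Bad B A (π A) then Real.exp τ else 1) ≤
      ∑ π : M → Ω, (S.card : ℝ) * 2 ^ Fintype.card M := by
    rw [sum_comm, sum_const, card_univ, Fintype.card_fun, nsmul_eq_mul, mul_left_comm,
      ← nsmul_eq_mul]
    refine sum_le_card_nsmul _ _ _ fun B _ => ?_
    rw [← Fintype.piFinset_univ,
      ← prod_univ_sum (fun _ => univ) fun A ω => if Bad B A ω then Real.exp τ else 1]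
    push_cast
    rw [← mul_pow, ← card_univ (α := M), ← prod_const]
    refine prod_le_prod (fun A _ => sum_nonneg fun _ _ => by positivity) fun A _ => ?_
    rw [sum_ite, sum_const, sum_const, nsmul_eq_mul, nsmul_eq_mul, mul_one, mul_two]
    refine add_le_add ((mul_le_mul_of_nonneg_right (h B A) (Real.exp_pos _).le).trans_eq ?_)
      (by exact_mod_cast card_le_univ _)
    rw [mul_right_comm, ← Real.exp_add]
    simp
  obtain ⟨π, -, hπ⟩ := exists_le_of_sum_le univ_nonempty h1
  refine ⟨π, fun B hB => ?_⟩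
  have h2 := (single_le_sum (f := fun B => ∏ A, (if Bad B A (π A) then Real.exp τ else 1))
    (fun _ _ => prod_nonneg fun _ _ => by positivity) hB).trans (hπ.trans hS)
  rw [← prod_filter, prod_const, ← Real.exp_nat_mul, Real.exp_le_exp, mul_comm] at h2
  exact le_of_mul_le_mul_left h2 hτ

end T74B
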