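import Pool.Agent.Lib.MP_74be22_h62.Perm

/-! The affine plane: a large set with bounded line intersections has many non-flat directions. -/

open Finset
open scoped Classical

namespace T74B

theorem shift {F : Type} [Fintype F] (f : F → ℕ) (a : ℝ) :
    (Fintype.card F : ℝ) * ∑ j, ((f j : ℝ) - a) ^ 2 = Fintype.card F * ∑ j, (f j : ℝ) ^ 2 -
      (∑ j, (f j : ℝ)) ^ 2 + (∑ j, (f j : ℝ) - a * Fintype.card F) ^ 2 := by
  simp only [sub_sq, sum_add_distrib, sum_sub_distrib, sum_const, card_univ, nsmul_eq_mul,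
    ← sum_mul, ← mul_sum]
  ring

theorem cs {F : Type} [Fintype F] (f : F → ℕ) :
    (∑ j, (f j : ℝ)) ^ 2 ≤ Fintype.card F * ∑ j, (f j : ℝ) ^ 2 := sq_sum_le_card_mul_sum_sq

theorem NF.var {F : Type} [Fintype F] [Nonempty F] {f : F → ℕ} {t : ℝ} (h : NF t f) :
    (∑ j, (f j : ℝ)) ^ 2 + Fintype.card F * (t / 4) ≤ Fintype.card F * ∑ j, (f j : ℝ) ^ 2 := by
  have hg : (0 : ℝ) < Fintype.card F := by exact_mod_cast Fintype.card_pos
  obtain ⟨a, h1, h2⟩ := h
  have e := shift f ((∑ j, (f j : ℝ)) / Fintype.card F)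
  rw [div_mul_cancel₀ _ hg.ne', sub_self] at e
  set μ := (∑ j, (f j : ℝ)) / Fintype.card F
  have key : ∀ s : Finset F, t ≤ s.card → (∀ j ∈ s, 1 / 4 ≤ ((f j : ℝ) - μ) ^ 2) →
      t / 4 ≤ ∑ j, ((f j : ℝ) - μ) ^ 2 := fun s k1 k2 => by
    have := (card_nsmul_le_sum _ _ _ k2).trans
      (sum_le_sum_of_subset_of_nonneg (subset_univ s) fun _ _ _ => sq_nonneg _)
    rw [nsmul_eq_mul] at this
    linarith
  have : t / 4 ≤ ∑ j, ((f j : ℝ) - μ) ^ 2 := by
    by_cases c : 1 / 4 ≤ ((a : ℝ) - μ) ^ 2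
    · exact key _ h1 fun j hj => by rw [(mem_filter.1 hj).2]; exact c
    · refine key _ h2 fun j hj => ?_
      have c1 := abs_lt.1 (abs_lt_of_sq_lt_sq (a := (a : ℝ) - μ) (b := 1 / 2) (by linarith)
        (by norm_num))
      rcases Nat.lt_or_gt_of_ne (mem_filter.1 hj).2 with k | k
      · have : (f j : ℝ) + 1 ≤ a := by exact_mod_cast k
        nlinarith
      · have : (a : ℝ) + 1 ≤ f j := by exact_mod_cast k
        nlinarith
  nlinarith

theorem flat {F : Type} [Fintype F] {f : F → ℕ} {C : ℕ} {κ : ℝ} (h0 : κ * (C + 1) ≤ 1)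
    (hf : ∀ j, f j ≤ C) (h : ¬ NF (κ * Fintype.card F) f) :
    (Fintype.card F : ℝ) * ∑ j, (f j : ℝ) ^ 2 ≤
      (∑ j, (f j : ℝ)) ^ 2 + Fintype.card F * (κ * Fintype.card F * C ^ 2) := by
  obtain ⟨a, ha, h1⟩ := popular f univ C fun j _ => hf j
  have hg : (0 : ℝ) ≤ Fintype.card F := by positivity
  have h2 : (Fintype.card F : ℝ) ≤ (C + 1) * (univ.filter fun j => f j = a).card := by
    exact_mod_cast h1
  have h3 : ((univ.filter fun j => f j ≠ a).card : ℝ) ≤ κ * Fintype.card F := by
    by_contra c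
    refine h ⟨a, le_of_mul_le_mul_left ?_ (show (0 : ℝ) < C + 1 by positivity), (not_le.1 c).le⟩
    nlinarith
  have h4 : ∑ j, ((f j : ℝ) - a) ^ 2 ≤ κ * Fintype.card F * C ^ 2 := by
    rw [← sum_filter_of_ne (p := fun j => f j ≠ a) fun j _ k e => k (by simp [e])]
    refine (sum_le_card_nsmul _ _ ((C : ℝ) ^ 2) fun j _ => ?_).trans ?_
    · have a1 : (f j : ℝ) ≤ C := by exact_mod_cast hf j
      have a2 : (a : ℝ) ≤ C := by exact_mod_cast ha
      have a3 : (0 : ℝ) ≤ f j := by positivity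
      have a4 : (0 : ℝ) ≤ a := by positivity
      nlinarith
    · rw [nsmul_eq_mul]
      exact mul_le_mul_of_nonneg_right h3 (by positivity)
  nlinarith [shift f a, sq_nonneg (∑ j, (f j : ℝ) - a * Fintype.card F),
    mul_le_mul_of_nonneg_left h4 hg]

variable {K : Type} [Field K]

/-- the line through a point in a given direction -/
def lin : Option K → K × K → K
  | none, P => P.1
  | some m, P => P.2 - m * P.1

theorem lin_ex (P Q : K × K) : ∃ d, lin d P = lin d Q := by
  by_cases h : P.1 = Q.1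
  · exact ⟨none, h⟩
  · refine ⟨some ((P.2 - Q.2) / (P.1 - Q.1)), ?_⟩
    have := sub_ne_zero.2 h
    simp only [lin]
    field_simp
    ring

theorem lin_inj {d e : Option K} (h : d ≠ e) {P Q : K × K} (h1 : lin d P = lin d Q)
    (h2 : lin e P = lin e Q) : P = Q := by
  rcases d with _ | a <;> rcases e with _ | b <;> simp only [lin] at h1 h2
  · exact absurd rfl h
  · exact Prod.ext h1 (by linear_combination h2 + b * h1)
  · exact Prod.ext h2 (by linear_combination h1 + a * h2)
  · have hab : a - b ≠ 0 := sub_ne_zero.2 fun k => h (by rw [k])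
    have h3 : P.1 = Q.1 := mul_left_cancel₀ hab (by linear_combination h2 - h1)
    exact Prod.ext h3 (by linear_combination h1 + a * h3)

variable [Fintype K]

/-- number of points of `B` on a line -/
noncomputable def fl (B : Finset (K × K)) (d : Option K) (l : K) : ℕ :=
  (B.filter fun P => lin d P = l).card

theorem fl_univ (d : Option K) (l : K) : fl univ d l = Fintype.card K := by
  rw [fl, ← card_univ]
  rcases d with _ | a
  · refine card_nbij' (·.2) (fun y => (l, y)) (fun _ _ => by simp) (fun _ _ => by simp [lin])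
      (fun P h => ?_) fun _ _ => rfl
    exact Prod.ext (mem_filter.1 h).2.symm rfl
  · refine card_nbij' (·.1) (fun x => (x, l + a * x)) (fun _ _ => by simp)
      (fun _ _ => by simp [lin]) (fun P h => ?_) fun _ _ => rfl
    have : P.2 - a * P.1 = l := (mem_filter.1 h).2
    exact Prod.ext rfl (by simp [← this])

theorem sum_fl (B : Finset (K × K)) (d : Option K) : ∑ l, fl B d l = B.card :=
  (card_eq_sum_card_fiberwise fun _ _ => mem_univ _).symm

theorem second (B : Finset (K × K)) :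
    Fintype.card K * B.card + B.card ^ 2 ≤ ∑ d, ∑ l, fl B d l ^ 2 := by
  have e : ∀ d, ∑ l, fl B d l ^ 2 = ∑ P ∈ B, ∑ Q ∈ B, if lin d Q = lin d P then 1 else 0 := by
    intro d
    rw [← sum_fiberwise B (lin d)]
    refine sum_congr rfl fun l _ => ?_
    rw [sum_congr rfl (g := fun _ => fl B d l) fun P hP => by
      rw [(mem_filter.1 hP).2, fl, card_filter], sum_const, smul_eq_mul, sq, fl]
  simp only [e]
  rw [sum_comm, show Fintype.card K * B.card + B.card ^ 2 = B.card • (Fintype.card K + B.card) by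
    rw [smul_eq_mul]; ring]
  refine card_nsmul_le_sum _ _ _ fun P hP => ?_
  rw [sum_comm]
  have : Fintype.card K + B.card = ∑ Q ∈ B, ((if Q = P then Fintype.card K else 0) + 1) := by
    simp [sum_add_distrib, hP]
  rw [this]
  refine sum_le_sum fun Q _ => ?_
  by_cases h : Q = P
  · simp [h]
  · obtain ⟨d, hd⟩ := lin_ex Q P
    rw [if_neg h]
    exact le_trans (by simp [hd]) (single_le_sum (fun _ _ => Nat.zero_le _) (mem_univ d))

theorem nonflat (B : Finset (K × K)) {C : ℕ} (hC : 1 ≤ C) (hB : ∀ d l, fl B d l ≤ C)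
    (h1 : (Fintype.card K : ℝ) ≤ 2 * B.card) (h2 : 2 * C ≤ Fintype.card K) :
    (Fintype.card K : ℝ) ≤ 8 * C ^ 2 *
      (univ.filter fun d => NF (1 / (16 * C ^ 2) * Fintype.card K) (fl B d)).card := by
  have hg : (1 : ℝ) ≤ Fintype.card K := by exact_mod_cast Fintype.card_pos
  have hC' : (1 : ℝ) ≤ C := by exact_mod_cast hC
  have h2' : 2 * (C : ℝ) ≤ Fintype.card K := by exact_mod_cast h2
  have s1 : ∀ d, ∑ l, (fl B d l : ℝ) = B.card := fun d => by exact_mod_cast sum_fl B d
  have hN : (B.card : ℝ) ≤ Fintype.card K * C := by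
    rw [← s1 none, ← nsmul_eq_mul]
    exact sum_le_card_nsmul _ _ _ fun l _ => by exact_mod_cast hB none l
  have s2 : (Fintype.card K : ℝ) * B.card + B.card ^ 2 ≤ ∑ d, ∑ l, (fl B d l : ℝ) ^ 2 := by
    exact_mod_cast second B
  have s3 : ∀ d, (Fintype.card K : ℝ) * ∑ l, (fl B d l : ℝ) ^ 2 ≤
      B.card ^ 2 + Fintype.card K ^ 2 / 16 +
      (if NF (1 / (16 * C ^ 2) * Fintype.card K) (fl B d) then 1 else 0) *
        (Fintype.card K * C) ^ 2 := fun d => by
    split_ifs with h
    · have : ∑ l, (fl B d l : ℝ) ^ 2 ≤ Fintype.card K * C ^ 2 := by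
        rw [← nsmul_eq_mul]
        exact sum_le_card_nsmul _ _ _ fun l _ =>
          pow_le_pow_left₀ (by positivity) (by exact_mod_cast hB d l) _
      nlinarith [mul_le_mul_of_nonneg_left this (zero_le_one.trans hg), sq_nonneg (B.card : ℝ)]
    · have := flat (by rw [div_mul_eq_mul_div, div_le_one (by positivity)]; nlinarith) (hB d) h
      rw [s1] at this
      refine this.trans_eq ?_
      field_simp
      ring
  have s4 := sum_le_sum fun d (_ : d ∈ univ) => s3 d
  rw [← mul_sum, sum_add_distrib, sum_const, ← sum_mul, sum_boole, card_univ, Fintype.card_option,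
    nsmul_eq_mul] at s4
  push_cast at s4
  set g : ℝ := (Fintype.card K : ℝ)
  set N : ℝ := (B.card : ℝ)
  have hN0 : 0 ≤ N := by positivity
  have t1 := mul_le_mul_of_nonneg_left s2 (zero_le_one.trans hg)
  have t2 : N * N ≤ g * g / 2 * N := mul_le_mul_of_nonneg_right (by nlinarith) hN0
  have t3 : g * g * g ≤ g * g * (2 * N) := mul_le_mul_of_nonneg_left h1 (by positivity)
  have t4 : g * g * 1 ≤ g * g * g := mul_le_mul_of_nonneg_left hg (by positivity)
  refine le_of_mul_le_mul_left ?_ (show 0 < g * g by positivity)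
  nlinarith

end T74B
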