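import Pool.Agent.Lib.MP_74be22_h62.Plane

/-! One inflation step: every point is replaced by an affine plane. -/

open Finset
open scoped Classical

namespace T74B

section des

variable {X D M : Type} [Fintype X] [Fintype D]

/-- number of points of `B` in the set `A`; `thr x d` is the set through `x` in direction `d` -/
noncomputable def deg (thr : X → D → M) (B : Finset X) (A : M) : ℕ :=
  ∑ i : X × D, if i.1 ∈ B ∧ thr i.1 i.2 = A then 1 else 0

/-- two points lie in at most one common set -/
def Lin (thr : X → D → M) : Prop := (∀ x, Function.Injective (thr x)) ∧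
  ∀ x x' d d' e e', x ≠ x' → thr x d = thr x' d' → thr x e = thr x' e' → d = e

theorem sum_deg [Fintype M] (thr : X → D → M) (B : Finset X) :
    ∑ A, deg thr B A = B.card * Fintype.card D := by
  unfold deg
  rw [sum_comm, Fintype.sum_prod_type]
  simp [ite_and]

end des

variable {K X M : Type} [Field K] [Fintype K] [Fintype X] [Fintype M]

/-- the inflated design -/
def nxt (thr : X → Option K → M) (π : M → X × Option K → Equiv.Perm K) (y : X × (K × K))
    (d : Option K) : M × K := (thr y.1 d, (π (thr y.1 d) (y.1, d)).symm (lin d y.2))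

/-- the part of `B` over `x` -/
noncomputable def fb (B : Finset (X × (K × K))) (x : X) : Finset (K × K) :=
  univ.filter fun P => (x, P) ∈ B

/-- the line counts that enter the sets over `A` -/
noncomputable def ff (thr : X → Option K → M) (B : Finset (X × (K × K))) (A : M)
    (i : X × Option K) (l : K) : ℕ := if thr i.1 i.2 = A then fl (fb B i.1) i.2 l else 0

variable (thr : X → Option K → M) (π : M → X × Option K → Equiv.Perm K)

omit [Fintype K] [Fintype X] [Fintype M] in
theorem lin_nxt (h : Lin thr) : Lin (nxt thr π) := by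
  refine ⟨fun y d e k => h.1 y.1 (congrArg Prod.fst k), ?_⟩
  rintro ⟨x, P⟩ ⟨x', P'⟩ d d' e e' hne k1 k2
  simp only [nxt, Prod.mk.injEq] at k1 k2
  by_cases hx : x = x'
  · subst hx
    obtain rfl := h.1 x k1.1
    obtain rfl := h.1 x k2.1
    by_contra hde
    exact hne (by rw [lin_inj hde (Equiv.injective _ k1.2) (Equiv.injective _ k2.2)])
  · exact h.2 _ _ _ _ _ _ hx k1.1 k2.1

omit [Fintype M] in
theorem deg_nxt (B : Finset (X × (K × K))) (A : M) (j : K) :
    deg (nxt thr π) B (A, j) = ∑ i, ff thr B A i (π A i j) := by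
  unfold deg
  rw [Fintype.sum_prod_type, Fintype.sum_prod_type, Fintype.sum_prod_type]
  refine sum_congr rfl fun x _ => ?_
  rw [sum_comm]
  refine sum_congr rfl fun d _ => ?_
  unfold ff fl fb
  by_cases h : thr x d = A
  · subst h
    rw [if_pos rfl, filter_filter, card_filter]
    simp only [nxt, Prod.mk.injEq, true_and, Equiv.symm_apply_eq]
  · simp [nxt, h]

omit [Fintype X] [Fintype M] in
theorem sum_ff (B : Finset (X × (K × K))) (A : M) (i : X × Option K) :
    ∑ l, ff thr B A i l = if thr i.1 i.2 = A then (fb B i.1).card else 0 := by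
  unfold ff
  split_ifs
  · exact sum_fl _ _
  · simp

omit [Fintype M] in
theorem deg_nxt_univ (A : M) (j : K) :
    deg (nxt thr π) univ (A, j) = deg thr univ A * Fintype.card K := by
  rw [deg_nxt, deg, sum_mul]
  refine sum_congr rfl fun i _ => ?_
  have : fb (univ : Finset (X × (K × K))) i.1 = univ := by simp [fb]
  simp [ff, this, fl_univ]

/-- the bad event for one set -/
def BadF {I F : Type} [Fintype I] [Fintype F] (C : ℕ) (β θ κ θ' : ℝ) (f : I → F → ℕ)
    (π : I → Equiv.Perm F) : Prop :=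
  ∑ i, ∑ l, f i l ≤ C * Fintype.card F ∧
    (((∀ i, (∑ l, f i l : ℝ) ≤ (1 - β) * Fintype.card F) ∧
      ((univ.filter fun j => ∑ i, f i (π i j) = 0).card : ℝ) < θ * Fintype.card F) ∨
    ((∃ i, NF (κ * Fintype.card F) (f i)) ∧ ¬ NF (θ' * Fintype.card F) fun j => ∑ i, f i (π i j)))

theorem bad_count {I F : Type} [Fintype I] [Fintype F] [Nonempty F] (C : ℕ) {β κ c : ℝ}
    (hβ : 0 < β) (hκ : 0 ≤ κ) (h1 : c ≤ Real.exp (-(C / β)) / 4) (h2 : c ≤ κ / (16 * C + 8))
    (f : I → F → ℕ) :
    ((univ.filter fun π => BadF C β (Real.exp (-(C / β)) / 4) κ (κ / (16 * C + 8)) f π).card : ℝ) ≤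
      Real.exp (-(c * Fintype.card F - 2)) * Fintype.card (I → Equiv.Perm F) := by
  have hg : (0 : ℝ) ≤ Fintype.card F := by positivity
  have hΩ : (0 : ℝ) ≤ Fintype.card (I → Equiv.Perm F) := by positivity
  by_cases h0 : ∑ i, ∑ l, f i l ≤ C * Fintype.card F
  swap
  · rw [filter_false_of_mem fun π _ k => h0 k.1]
    simp only [card_empty, Nat.cast_zero]
    positivity
  simp only [BadF, h0, true_and, filter_or]
  have a1 : ((univ.filter fun π : I → Equiv.Perm F =>
      (∀ i, (∑ l, f i l : ℝ) ≤ (1 - β) * Fintype.card F) ∧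
      ((univ.filter fun j => ∑ i, f i (π i j) = 0).card : ℝ) <
        Real.exp (-(C / β)) / 4 * Fintype.card F).card : ℝ) ≤
      Real.exp (-(c * Fintype.card F)) * Fintype.card (I → Equiv.Perm F) := by
    by_cases k : ∀ i, (∑ l, f i l : ℝ) ≤ (1 - β) * Fintype.card F
    · simp only [k, implies_true, true_and]
      exact (zero_count f hβ k (by exact_mod_cast h0)).trans (mul_le_mul_of_nonneg_right
        (Real.exp_le_exp.2 (neg_le_neg (mul_le_mul_of_nonneg_right h1 hg))) hΩ)
    · simp only [k, false_and, filter_false, card_empty, Nat.cast_zero]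
      positivity
  have a2 : ((univ.filter fun π : I → Equiv.Perm F => (∃ i, NF (κ * Fintype.card F) (f i)) ∧
      ¬ NF (κ / (16 * C + 8) * Fintype.card F) fun j => ∑ i, f i (π i j)).card : ℝ) ≤
      2 * Real.exp (-(c * Fintype.card F)) * Fintype.card (I → Equiv.Perm F) := by
    by_cases k : ∃ i, NF (κ * Fintype.card F) (f i)
    · simp only [k, true_and]
      obtain ⟨i, k⟩ := k
      exact (nf_count f C hκ h0 i k).trans (mul_le_mul_of_nonneg_right (mul_le_mul_of_nonneg_left
        (Real.exp_le_exp.2 (neg_le_neg (mul_le_mul_of_nonneg_right h2 hg))) two_pos.le) hΩ)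
    · simp only [k, false_and, filter_false, card_empty, Nat.cast_zero]
      positivity
  refine (Nat.cast_le.2 (card_union_le _ _)).trans ?_
  rw [Nat.cast_add, neg_sub, sub_eq_add_neg (2 : ℝ), Real.exp_add]
  have := mul_le_mul_of_nonneg_right (Real.add_one_le_exp (2 : ℝ))
    (mul_nonneg (Real.exp_pos (-(c * Fintype.card F))).le hΩ)
  linarith

theorem step_core {C : ℕ} (hC : 1 ≤ C) {β θ θ' δ δ' ε E : ℝ} (b0 : 0 < β) (b1 : β * (C + 1) < 1)
    (t0 : 0 < θ) (t1 : 0 ≤ θ') (d1 : δ ≤ 1 / 2) (d2 : δ' ≤ θ * (δ - ε))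
    (e1 : ε ≤ 1 / (64 * C ^ 3)) (hg : 2 * C ≤ Fintype.card K)
    (mix : ∀ B : Finset (X × (K × K)), B.card ≤ C * Fintype.card M →
      ((univ.filter fun A => BadF C β θ (1 / (16 * C ^ 2)) θ' (ff thr B A) (π A)).card : ℝ) ≤
        ε * Fintype.card M)
    (old : ∀ B, (∀ A, deg thr B A ≤ C) →
      ((univ.filter fun A => deg thr B A = 0).card : ℝ) ≤ δ * Fintype.card M →
      E * Fintype.card M ≤ ∑ A, (deg thr B A : ℝ) ^ 2)
    (B' : Finset (X × (K × K))) (hB : ∀ A, deg (nxt thr π) B' A ≤ C)
    (hz : ((univ.filter fun A => deg (nxt thr π) B' A = 0).card : ℝ) ≤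
      δ' * Fintype.card (M × K)) :
    (E - 2 * β * C ^ 2 + θ' / (256 * C ^ 3)) * Fintype.card (M × K) ≤
      ∑ A, (deg (nxt thr π) B' A : ℝ) ^ 2 := by
  have g1 : (1 : ℝ) ≤ Fintype.card K := by exact_mod_cast Fintype.card_pos
  have g0 : (0 : ℝ) < Fintype.card K := by linarith
  have C1 : (1 : ℝ) ≤ C := by exact_mod_cast hC
  have m0 : (0 : ℝ) ≤ Fintype.card M := by positivity
  have b2 : β ≤ 1 / 2 := by nlinarith
  have mass : ∀ A, ∑ j, deg (nxt thr π) B' (A, j) = ∑ i, ∑ l, ff thr B' A i l := fun A => by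
    simp only [deg_nxt]
    rw [sum_comm]
    exact sum_congr rfl fun i _ => Equiv.sum_comp (π A i) (ff thr B' A i)
  have mass1 : ∀ A, ∑ j, deg (nxt thr π) B' (A, j) ≤ C * Fintype.card K := fun A =>
    (sum_le_card_nsmul _ _ C fun j _ => hB _).trans_eq (by simp [mul_comm])
  have cB : B'.card ≤ C * Fintype.card M := by
    have h1 := sum_deg (nxt thr π) B'
    have h2 := sum_le_card_nsmul univ (fun A => ∑ j, deg (nxt thr π) B' (A, j)) _
      fun A _ => mass1 A
    rw [Fintype.sum_prod_type, Fintype.card_option] at h1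
    rw [h1, card_univ, smul_eq_mul] at h2
    refine Nat.le_of_mul_le_mul_right ?_ (Fintype.card_pos (α := K))
    nlinarith
  have mx := mix B' cB
  set bad := univ.filter fun A => BadF C β θ (1 / (16 * C ^ 2)) θ' (ff thr B' A) (π A) with hbad
  set B := univ.filter fun x => (1 - β) * Fintype.card K ≤ (fb B' x).card with hBdef
  have low : ∀ A, (deg thr B A : ℝ) * ((1 - β) * Fintype.card K) ≤
      ∑ j, (deg (nxt thr π) B' (A, j) : ℝ) := fun A => by
    rw [← Nat.cast_sum, mass, deg]
    push_cast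
    rw [sum_mul]
    refine sum_le_sum fun i _ => ?_
    rw [← Nat.cast_sum, sum_ff]
    split_ifs with k1 k2 k2
    · rw [one_mul]; exact (mem_filter.1 k1.1).2
    · exact absurd k1.2 k2
    · simp
    · simp
  have dC : ∀ A, deg thr B A ≤ C := fun A => by
    by_contra k
    have k1 : (C : ℝ) + 1 ≤ deg thr B A := by exact_mod_cast not_le.1 k
    have k2 : ∑ j, (deg (nxt thr π) B' (A, j) : ℝ) ≤ C * Fintype.card K := by
      exact_mod_cast mass1 A
    have k3 := mul_le_mul_of_nonneg_right k1 (mul_nonneg (show 0 ≤ 1 - β by linarith) g0.le)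
    have k4 := mul_lt_mul_of_pos_right b1 g0
    nlinarith [low A]
  have zero : ((univ.filter fun A => deg thr B A = 0).card : ℝ) ≤ δ * Fintype.card M := by
    set Z := univ.filter fun A => deg thr B A = 0 with hZ
    have k1 : ∀ A ∈ Z \ bad, θ * Fintype.card K ≤
        (univ.filter fun j => deg (nxt thr π) B' (A, j) = 0).card := fun A hA => by
      by_contra k
      refine (mem_sdiff.1 hA).2 (mem_filter.2 ⟨mem_univ _, mass A ▸ mass1 A, Or.inl ⟨fun i => ?_,
        by simpa only [deg_nxt] using not_le.1 k⟩⟩)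
      rw [← Nat.cast_sum, sum_ff]
      split_ifs with k2
      · have k3 := sum_eq_zero_iff.1 (mem_filter.1 (mem_sdiff.1 hA).1).2 i (mem_univ _)
        refine (not_le.1 fun k4 => ?_).le
        rw [if_pos ⟨mem_filter.2 ⟨mem_univ _, k4⟩, k2⟩] at k3
        exact one_ne_zero k3
      · rw [Nat.cast_zero]
        exact mul_nonneg (by linarith) g0.le
    have k2 := (card_nsmul_le_sum _ _ _ k1).trans
      (sum_le_sum_of_subset_of_nonneg (subset_univ _) fun _ _ _ => Nat.cast_nonneg _)
    have k3 : ∑ A, ((univ.filter fun j => deg (nxt thr π) B' (A, j) = 0).card : ℝ) =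
        (univ.filter fun A => deg (nxt thr π) B' A = 0).card := by
      rw [← Nat.cast_sum]
      simp only [card_filter]
      rw [Fintype.sum_prod_type]
    have k4 : (Z.card : ℝ) ≤ (Z \ bad).card + bad.card := by
      exact_mod_cast card_le_card_sdiff_add_card
    rw [k3, nsmul_eq_mul] at k2
    rw [Fintype.card_prod, Nat.cast_mul] at hz
    have k5 : ((Z \ bad).card : ℝ) ≤ (δ - ε) * Fintype.card M := by
      refine le_of_mul_le_mul_right (k2.trans (hz.trans ?_)) (mul_pos t0 g0)
      nlinarith [mul_le_mul_of_nonneg_right d2 (mul_nonneg m0 g0.le)]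
    linarith
  have hE := old B dC zero
  have big : (Fintype.card M : ℝ) ≤ 4 * (B.card * Fintype.card K) := by
    have k1 : Fintype.card M ≤ (univ.filter fun A => deg thr B A = 0).card + ∑ A, deg thr B A := by
      rw [card_filter, ← sum_add_distrib, ← card_univ, card_eq_sum_ones]
      exact sum_le_sum fun A _ => by split_ifs <;> omega
    rw [sum_deg, Fintype.card_option] at k1
    have k2 : (Fintype.card M : ℝ) ≤ (univ.filter fun A => deg thr B A = 0).card +
        B.card * (Fintype.card K + 1) := by exact_mod_cast k1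
    have k3 : (0 : ℝ) ≤ B.card := by positivity
    nlinarith [mul_le_mul_of_nonneg_right d1 m0, mul_le_mul_of_nonneg_left g1 k3]
  set G := univ.filter fun A => ∃ i, NF (1 / (16 * C ^ 2) * Fintype.card K) (ff thr B' A i)
    with hG
  have cnt : (B.card : ℝ) * Fintype.card K ≤ 8 * C ^ 2 * (G.card * C) := by
    have k1 : ∀ x ∈ B, (Fintype.card K : ℝ) ≤ 8 * C ^ 2 * (univ.filter fun d =>
        NF (1 / (16 * C ^ 2) * Fintype.card K) (fl (fb B' x) d)).card := fun x hx => by
      refine nonflat _ hC (fun d l => le_trans ?_ (hB (thr x d, (π (thr x d) (x, d)).symm l)))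
        (by nlinarith [(mem_filter.1 hx).2]) hg
      rw [deg_nxt]
      refine le_trans (le_of_eq ?_) (single_le_sum (fun _ _ => Nat.zero_le _) (mem_univ (x, d)))
      simp [ff]
    have k2 := card_nsmul_le_sum _ _ _ k1
    rw [nsmul_eq_mul, ← mul_sum] at k2
    refine k2.trans (mul_le_mul_of_nonneg_left ?_ (by positivity))
    rw [← Nat.cast_sum, ← Nat.cast_mul, Nat.cast_le]
    refine le_trans ?_ (sum_le_card_nsmul G (deg thr B) C fun A _ => dC A)
    unfold deg
    rw [sum_comm, Fintype.sum_prod_type]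
    refine le_trans (sum_le_sum fun x hx => ?_) (sum_le_sum_of_subset (subset_univ B))
    rw [card_filter]
    refine sum_le_sum fun d _ => ?_
    split_ifs with k
    · refine le_trans (by simp [hx]) (single_le_sum (fun _ _ => Nat.zero_le _)
        (a := thr x d) (mem_filter.2 ⟨mem_univ _, (x, d), ?_⟩))
      rwa [show ff thr B' (thr x d) (x, d) = fl (fb B' x) d from funext fun l => if_pos rfl]
    · exact Nat.zero_le _
  have gain : (Fintype.card M : ℝ) ≤ 64 * C ^ 3 * (G \ bad).card := by
    have k4 : (G.card : ℝ) ≤ (G \ bad).card + bad.card := by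
      exact_mod_cast card_le_card_sdiff_add_card
    have k5 : 64 * C ^ 3 * (bad.card : ℝ) ≤ Fintype.card M := by
      have := mx.trans (mul_le_mul_of_nonneg_right e1 m0)
      rwa [one_div, inv_mul_eq_div, le_div_iff₀' (by positivity)] at this
    nlinarith [mul_le_mul_of_nonneg_left k4 (show (0 : ℝ) ≤ 64 * C ^ 3 by positivity)]
  have each : ∀ A, (Fintype.card K : ℝ) * ((deg thr B A : ℝ) ^ 2 - 2 * β * C ^ 2 +
      (if A ∈ G \ bad then 1 else 0) * (θ' / 4)) ≤ ∑ j, (deg (nxt thr π) B' (A, j) : ℝ) ^ 2 := by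
    intro A
    have k0 : (deg thr B A : ℝ) ^ 2 ≤ C ^ 2 :=
      pow_le_pow_left₀ (by positivity) (by exact_mod_cast dC A) _
    have k1 := pow_le_pow_left₀ (mul_nonneg (Nat.cast_nonneg _)
      (mul_nonneg (show 0 ≤ 1 - β by linarith) g0.le)) (low A) 2
    have k2 : (Fintype.card K : ℝ) ^ 2 * ((deg thr B A : ℝ) ^ 2 - 2 * β * C ^ 2) ≤
        ((deg thr B A : ℝ) * ((1 - β) * Fintype.card K)) ^ 2 := by
      rw [← mul_assoc, mul_pow, mul_comm _ ((Fintype.card K : ℝ) ^ 2)]
      refine mul_le_mul_of_nonneg_left ?_ (by positivity)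
      nlinarith [mul_le_mul_of_nonneg_left k0 b0.le, sq_nonneg (β * deg thr B A)]
    refine le_of_mul_le_mul_left ?_ g0
    split_ifs with k
    · have k3 : NF (θ' * Fintype.card K) fun j => deg (nxt thr π) B' (A, j) := by
        by_contra k4
        exact (mem_sdiff.1 k).2 (mem_filter.2 ⟨mem_univ _, mass A ▸ mass1 A,
          Or.inr ⟨(mem_filter.1 (mem_sdiff.1 k).1).2, by simpa only [deg_nxt] using k4⟩⟩)
      nlinarith [k3.var]
    · nlinarith [cs fun j => deg (nxt thr π) B' (A, j)]
  have tot := sum_le_sum fun A (_ : A ∈ univ) => each A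
  rw [← mul_sum, sum_add_distrib, sum_sub_distrib, sum_const, ← sum_mul, sum_boole,
    filter_mem_eq_inter, univ_inter, card_univ, nsmul_eq_mul] at tot
  rw [Fintype.sum_prod_type]
  refine le_trans ?_ tot
  rw [Fintype.card_prod, Nat.cast_mul, ← mul_assoc, mul_comm]
  refine mul_le_mul_of_nonneg_left ?_ g0.le
  have k : θ' / (256 * C ^ 3) * Fintype.card M ≤ (G \ bad).card * (θ' / 4) := by
    rw [div_mul_eq_mul_div, div_le_iff₀ (by positivity)]
    nlinarith [mul_le_mul_of_nonneg_left gain t1]
  linarith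

end T74B
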